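import Mathlib

set_option autoImplicit false

namespace Pool.Agent.Results.MP_944b5f_al.Equal

open Set Filter

/-- Operations of arity `n + 1` on `ℕ`. -/
abbrev Op (n : ℕ) := (Fin (n + 1) → ℕ) → ℕ

/-- Clones on `ℕ`; `C n` is the set of members of arity `n + 1`. -/
def IsClone (C : ∀ n, Set (Op n)) : Prop :=
  (∀ n i, (fun x => x i) ∈ C n) ∧
    ∀ m n, ∀ f ∈ C m, ∀ g : Fin (m + 1) → Op n, (∀ i, g i ∈ C n) → (fun x => f fun i => g i x) ∈ C n

/-- The nowhere 1-1 binary operations. -/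
def T2 : Set (Op 1) := {f | ¬ ∃ u v : ℕ → ℕ,
  InjOn (fun p : ℕ × ℕ => f ![u p.1, v p.2]) {p | p.1 < p.2} ∨
    InjOn (fun p : ℕ × ℕ => f ![u p.1, v p.2]) {p | p.2 < p.1}}

/-- The clone generated by `T2`. -/
def Gen (n : ℕ) : Set (Op n) := {f | ∀ C, IsClone C → T2 ⊆ C 1 → f ∈ C n}

abbrev D : Set (ℕ × ℕ) := {p | p.2 < p.1}

def EU (g : ℕ × ℕ → ℕ) : Prop := ∃ u : ℕ → ℕ, (∀ p, g p = u p.1) ∨ ∀ p, g p = u p.2

def N {n : ℕ} (f : Op n) : Prop :=
  ∀ U : Fin (n + 1) → ℕ × ℕ → ℕ, (∀ i, EU (U i)) → ¬ InjOn (fun p => f fun i => U i p) D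

theorem EU.comp {g : ℕ × ℕ → ℕ} (h : EU g) (k s : ℕ → ℕ) : EU fun p => k (g (Prod.map s s p)) :=
  let ⟨u, h⟩ := h
  ⟨fun a => k (u (s a)), h.imp (fun h _ => congrArg k (h _)) fun h _ => congrArg k (h _)⟩

theorem sub {F : ℕ × ℕ → ℕ} (h : InjOn F D) {s : ℕ → ℕ} (m : StrictMono s) :
    InjOn (fun p => F (Prod.map s s p)) D :=
  fun _ a _ b e => m.injective.prodMap m.injective (h (m a) (m b) e)

theorem inf {F : ℕ × ℕ → ℕ} (h : InjOn F D) {S : Set ℕ} (f : S.Finite) :
    ¬ ∀ a, F (a + 2, 0) ∈ S := fun k =>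
  infinite_of_injective_forall_mem (fun a b e => by simpa using h (by simp) (by simp) e) k f

theorem not1 {F : ℕ × ℕ → ℕ} (h : InjOn F D) : F (2, 0) ≠ F (2, 1) :=
  fun e => by simpa using h (by simp) (by simp) e

theorem not2 {F : ℕ × ℕ → ℕ} (h : InjOn F D) : F (1, 0) ≠ F (2, 0) :=
  fun e => by simpa using h (by simp) (by simp) e

theorem N.of_ne {n : ℕ} {f : Op n} (h : ∀ U : Fin (n + 1) → ℕ × ℕ → ℕ, (∀ i, EU (U i)) →
    (∀ p ∈ D, (f fun i => U i p) ≠ 0) → ¬ InjOn (fun p => f fun i => U i p) D) : N f := by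
  intro U u j
  obtain ⟨k, hk⟩ : ∃ k, ∀ p ∈ D, (f fun i => U i p) = 0 → p.2 < k := by
    by_cases e : ∃ q ∈ D, (f fun i => U i q) = 0
    · obtain ⟨q, q1, q2⟩ := e
      exact ⟨q.2 + 1, fun p a b => j a q1 (b.trans q2.symm) ▸ Nat.lt_succ_self _⟩
    · exact ⟨0, fun p a b => absurd ⟨p, a, b⟩ e⟩
  exact h (fun i p => U i (Prod.map (· + k) (· + k) p)) (fun i => (u i).comp id _)
    (fun p a b => by simpa using hk _ (by simpa using a) b) (sub j (add_left_strictMono))

theorem two (a b : ℕ × ℕ → ℕ) (p : ℕ × ℕ) : (fun i => ![a, b] i p) = ![a p, b p] := by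
  ext i; fin_cases i <;> rfl

theorem N.t2 {f : Op 1} (h : N f) : f ∈ T2 := by
  rintro ⟨u, v, j | j⟩
  · refine h ![fun p => u p.2, fun p => v p.1] (by
      simpa [Fin.forall_fin_two] using ⟨⟨u, .inr fun _ => rfl⟩, v, .inl fun _ => rfl⟩)
      fun p a q b e => Prod.swap_injective (j a b ?_)
    simpa only [two, Prod.fst_swap, Prod.snd_swap] using e
  · refine h ![fun p => u p.1, fun p => v p.2] (by
      simpa [Fin.forall_fin_two] using ⟨⟨u, .inl fun _ => rfl⟩, v, .inr fun _ => rfl⟩)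
      fun p a q b e => j a b ?_
    simpa only [two] using e

theorem t2_N {f : Op 1} (h : f ∈ T2) : N f := fun U u j => by
  have e : ∀ p, (fun i => U i p) = ![U 0 p, U 1 p] := fun p => by ext i; fin_cases i <;> rfl
  simp only [e] at j
  obtain ⟨a, i | i⟩ := u 0 <;> obtain ⟨b, k | k⟩ := u 1 <;> simp only [i, k] at j
  exacts [not1 j rfl, h ⟨a, b, .inr j⟩,
    h ⟨a, b, .inl fun p x q y z => Prod.swap_injective (j x y z)⟩, not2 j rfl]

theorem un (f : ℕ → ℕ) (i : Fin 2) : (fun w => f (w i)) ∈ T2 := N.t2 fun U u j => by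
  obtain ⟨a, k | k⟩ := u i <;> simp only [k] at j
  exacts [not1 j rfl, not2 j rfl]

theorem mx : (fun w => max (w 0) (w 1)) ∈ T2 := N.t2 fun U u j => by
  have : ∀ a b : ℕ → ℕ, ¬ InjOn (fun p : ℕ × ℕ => max (a p.1) (b p.2)) D := fun a b j =>
    inf j (finite_Iic (max (b 0) (b 1))) fun x => by
      have : max (a (x + 2)) (b 0) ≠ max (a (x + 2)) (b 1) :=
        fun e => by simpa using j (by simp : (x + 2, 0) ∈ D) (by simp : (x + 2, 1) ∈ D) e
      simp only [mem_Iic]
      omega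
  obtain ⟨a, i | i⟩ := u 0 <;> obtain ⟨b, k | k⟩ := u 1 <;> simp only [i, k] at j
  exacts [not1 j rfl, this _ _ j, this b a (by simpa only [max_comm] using j), not2 j rfl]

theorem canon (F : ℕ × ℕ → ℕ) : ∃ s, StrictMono s ∧ (InjOn (fun p => F (Prod.map s s p)) D ∨
    ∃ g, EU g ∧ ∀ p ∈ D, F (Prod.map s s p) = g p) := by
  let U := hyperfilter ℕ
  have key : ∀ (P : ℕ → Prop) (r : ℕ → ℕ → Prop), (∀ᶠ a in U, P a) → (∀ b, P b → ∀ᶠ a in U, r b a) →
      ∃ s : ℕ → ℕ, StrictMono s ∧ (∀ n, P (s n)) ∧ ∀ m n, m < n → r (s m) (s n) := fun P r h k => by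
    obtain ⟨s, s1, s2⟩ := exists_seq_of_forall_finset_exists P (fun b a => b < a ∧ r b a)
      fun t i => (h.and ((eventually_all_finset t).2 fun b j => Eventually.and
        (Nat.hyperfilter_le_atTop (eventually_gt_atTop b)) (k b (i b j)))).exists
    exact ⟨s, fun m n l => (s2 m n l).1, s1, fun m n l => (s2 m n l).2⟩
  by_cases h : ∀ᶠ b in U, ∃ c, ∀ᶠ a in U, F (a, b) = c
  · choose! c hc using fun b (h : ∃ c, ∀ᶠ a in U, F (a, b) = c) => h
    obtain ⟨s, s1, -, s2⟩ := key _ (fun b a => F (a, b) = c b) h hc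
    exact ⟨s, s1, .inr ⟨_, ⟨c ∘ s, .inr fun _ => rfl⟩, fun p i => s2 _ _ i⟩⟩
  by_cases k : ∃ c, ∀ᶠ b in U, ∀ᶠ a in U, F (a, b) = F (a, c)
  · obtain ⟨c, k⟩ := k
    obtain ⟨s, s1, -, s2⟩ := key _ (fun b a => F (a, b) = F (a, c)) k fun _ => id
    exact ⟨s, s1, .inr ⟨_, ⟨fun a => F (s a, c), .inl fun _ => rfl⟩, fun p i => s2 _ _ i⟩⟩
  obtain ⟨s, s1, s2, s3⟩ := key (fun b => ∀ c, ∀ᶠ a in U, F (a, b) ≠ c) (fun x y =>
    (∀ᶠ a in U, F (a, y) ≠ F (a, x)) ∧ ∀ b ∈ Iic x, ((∀ c, ∀ᶠ a in U, F (a, b) ≠ c) →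
      ∀ k ∈ Iic x, ∀ l ∈ Iic x, F (y, b) ≠ F (k, l)) ∧
      ((∀ᶠ a in U, F (a, x) ≠ F (a, b)) → F (y, x) ≠ F (y, b)))
    ((Ultrafilter.eventually_not.2 h).mono fun b i c => Ultrafilter.eventually_not.2 fun j => i ⟨c, j⟩)
    fun x _ => ((Ultrafilter.eventually_not.2 fun j => k ⟨x, j⟩).mono fun _ =>
      Ultrafilter.eventually_not.2).and ((eventually_all_finite (finite_Iic x)).2 fun b _ =>
      Eventually.and (eventually_imp_distrib_left.2 fun i => (eventually_all_finite (finite_Iic x)).2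
        fun k _ => (eventually_all_finite (finite_Iic x)).2 fun l _ => i _)
        (eventually_imp_distrib_left.2 id))
  have a : ∀ p ∈ D, ∀ q ∈ D, p.1 < q.1 → F (s q.1, s q.2) ≠ F (s p.1, s p.2) := fun p i q j l =>
    ((s3 (q.1 - 1) q.1 (by omega)).2 _ (s1.monotone (Nat.le_sub_one_of_lt j))).1 (s2 _) _
      (s1.monotone (by omega)) _ (s1.monotone (Nat.le_sub_one_of_lt (lt_trans i l)))
  have b : ∀ x y z, x < y → y < z → F (s z, s y) ≠ F (s z, s x) := fun x y z i j =>
    ((s3 y z j).2 _ (s1 i).le).2 (s3 x y i).1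
  refine ⟨s, s1, .inl fun p i q j e => ?_⟩
  rcases lt_trichotomy p.1 q.1 with l | l | l
  · exact absurd e.symm (a p i q j l)
  · refine Prod.ext l ?_
    change F (s p.1, s p.2) = F (s q.1, s q.2) at e
    rcases lt_trichotomy p.2 q.2 with m | m | m
    exacts [absurd (l ▸ e.symm :) (b _ _ _ m j), m, absurd (l ▸ e :) (b _ _ _ m (lt_of_lt_of_eq i l))]
  · exact absurd e (a q j p i l)

theorem closed {f g h : Op 1} (a : f ∈ T2) (b : g ∈ T2) (c : h ∈ T2) :
    (fun x => f ![g x, h x]) ∈ T2 := N.t2 fun U u j => by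
  obtain ⟨s, s1, i | ⟨G, g1, g2⟩⟩ := canon fun p => g fun i => U i p
  · exact t2_N b _ (fun i => (u i).comp id s) i
  obtain ⟨t, t1, i | ⟨H, h1, h2⟩⟩ := canon fun p => h fun i => U i (Prod.map s s p)
  · exact t2_N c _ (fun i => ((u i).comp id s).comp id t) i
  refine t2_N a ![fun p => G (Prod.map t t p), H] (by
    simpa [Fin.forall_fin_two] using ⟨g1.comp id t, h1⟩) fun p x q y e => sub (sub j s1) t1 x y ?_
  simp only [g2 (p.map t t) (t1 x), g2 (q.map t t) (t1 y), h2 _ x, h2 _ y]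
  simpa only [two] using e

variable {C : ∀ n, Set (Op n)} (hC : IsClone C) (hT : T2 ⊆ C 1)
include hC hT

theorem bin {f : ℕ → ℕ → ℕ} (h : (fun w => f (w 0) (w 1)) ∈ T2) {n : ℕ} {a b : Op n} (i : a ∈ C n)
    (j : b ∈ C n) : (fun x => f (a x) (b x)) ∈ C n :=
  hC.2 _ _ _ (hT h) ![a, b] (by simp [Fin.forall_fin_two, i, j])

theorem sup {n : ℕ} {ι : Type} (s : Finset ι) {g : ι → Op n} (h : ∀ i, g i ∈ C n) :
    (fun x => s.sup fun i => g i x) ∈ C n := by
  classical
  induction s using Finset.induction_on with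
  | empty => exact bin hC hT (f := fun _ _ => 0) (un (fun _ => 0) 0) (hC.1 n 0) (hC.1 n 0)
  | insert i s _ k => simpa only [Finset.sup_insert] using bin hC hT mx (h i) k

omit hT in
theorem upd {m n : ℕ} {a : Op n} (i : a ∈ C n) {g : Fin (n + 1) → Op m} (j : ∀ k, g k ∈ C m)
    (l : Fin (n + 1)) {h : Op m} (k : h ∈ C m) :
    (fun x => a (Function.update (fun k => g k x) l (h x))) ∈ C m := by
  refine mem_of_eq_of_mem (funext fun x => congrArg a (funext fun k => ?_))
    (hC.2 _ _ _ i (Function.update g l h) fun r => ?_)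
  · by_cases c : k = l <;> simp [c]
  · by_cases c : r = l <;> simp [c, j, k]

theorem step {n : ℕ} (ih : ∀ f : Op n, N f → f ∈ C n) {f : Op (n + 1)} (hf : N f) (j : Fin (n + 2))
    (i : Fin (n + 1)) : ∃ g ∈ C (n + 1), ∀ x z, g (j.insertNth z x) ≤ f (j.insertNth z x) ∧
      ((∀ k, x k ≤ x i) ∧ x i ≤ z → g (j.insertNth z x) = f (j.insertNth z x)) := by
  classical
  let V : (Fin (n + 1) → ℕ) → ℕ → ℕ := fun x z => f (j.insertNth z x)
  have hV : ∀ (X : Fin (n + 1) → ℕ × ℕ → ℕ) Z, (∀ k, EU (X k)) → EU Z →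
      ¬ InjOn (fun p => V (fun k => X k p) (Z p)) D := fun X Z a b c =>
    hf (fun k p => Fin.insertNth (α := fun _ => ℕ) j (Z p) (fun k => X k p) k)
      (j.forall_iff_succAbove.2 (by simp [a, b])) c
  let old : ℕ → Set ℕ := fun y => f '' Iic fun _ => y
  have ho : ∀ y, (old y).Finite := fun y => (finite_Iic _).image _
  obtain ⟨dec, hd⟩ := exists_surjective_nat (Fin (n + 1) → ℕ)
  let R : (Fin (n + 1) → ℕ) → ℕ → Prop := fun x z => (∀ k, x k ≤ x i) ∧ x i ≤ z
  let o : Bool → (Fin (n + 1) → ℕ) → ℕ → ℕ := fun b x z => if R x z ∧ (V x z ∈ old (x i) ↔ b) then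
    bif b then V x z else sInf {c | V (dec c) z = V x z} + 1 else 0
  have hb : ∀ y, ∃ S : Set ℕ, S.Finite ∧ ∀ b x z, x i ≤ y → o b x z ∈ S := fun y => by
    obtain ⟨K, hK⟩ := ((finite_Iic fun _ : Fin (n + 1) => y).image (Function.surjInv hd)).bddAbove
    refine ⟨old y ∪ Iic (K + 1), (ho y).union (finite_Iic _), fun b x z h => ?_⟩
    simp only [o]
    split_ifs with e
    · cases b
      · exact .inr (Nat.succ_le_succ ((Nat.sInf_le (by simp [Function.surjInv_eq])).trans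
          (hK ⟨x, fun k => (e.1.1 k).trans h, rfl⟩)))
      · exact .inl (image_mono (Iic_subset_Iic.2 fun _ => h) (e.2.2 rfl))
    · simp
  let τ := fun y z (t : Bool × (Fin (n + 1) → Fin (y + 1))) =>
    o t.1 (Function.update (fun k => t.2 k) i y) z
  have hτ : ∀ y, (range (τ y)).Finite := fun y => by
    obtain ⟨S, s1, s2⟩ := hb y
    exact (Finite.pi' fun _ => s1).subset (by rintro _ ⟨z, rfl⟩ t; exact s2 _ _ _ (by simp))
  let B := fun y z => if y ≤ z then Nat.pair y (Function.invFun (τ y) (τ y z)) + 1 else 0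
  let A : Bool → Op n := fun b w => if w i = 0 then 0 else
    o b (Function.update w i (w i - 1).unpair.1) (w i - 1).unpair.2
  let G := fun p z => if p = 0 then 0 else V (dec (p - 1)) z
  have hB : (fun w : Fin 2 → ℕ => B (w 0) (w 1)) ∈ T2 := N.t2 (.of_ne fun U u h e => by
    have f : ∀ y, ¬ ∀ a, U 0 (a + 2, 0) ≤ y := fun y k => inf e ((finite_Iic y).biUnion fun x _ =>
      (hτ x).image fun t => Nat.pair x (Function.invFun (τ x) t) + 1) fun a => by
        have := h (a + 2, 0) (by simp)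
        simp only [B, ne_eq, ite_eq_right_iff, Classical.not_imp] at this
        exact mem_biUnion (k a) ⟨_, ⟨_, rfl⟩, (if_pos this.1).symm⟩
    obtain ⟨a, k | k⟩ := u 0
    · obtain ⟨b, l | l⟩ := u 1
      · exact not1 e (by simp only [k, l])
      · refine f (b 0) fun x => ?_
        have := h (x + 2, 0) (by simp)
        simp only [B, ne_eq, ite_eq_right_iff, Classical.not_imp] at this
        exact l (x + 2, 0) ▸ this.1
    · exact f (a 0) fun x => (k _).le)
  have hG : (fun w : Fin 2 → ℕ => G (w 0) (w 1)) ∈ T2 := N.t2 (.of_ne fun U u h e =>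
    hV (fun k p => dec (U 0 p - 1) k) (U 1) (fun k => (u 0).comp (fun c => dec (c - 1) k) id) (u 1)
      (e.congr fun p a => if_neg fun c => h p a (if_pos c)))
  have hA : ∀ b, N (A b) := fun b => .of_ne fun U u h e => by
    let X := fun k p => Function.update (fun k => U k p) i (U i p - 1).unpair.1 k
    let Z := fun p => (U i p - 1).unpair.2
    have x1 : ∀ k, EU (X k) := fun k => by
      by_cases c : k = i
      · simpa [X, c] using (u i).comp (fun c => (c - 1).unpair.1) id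
      · simpa [X, c] using u k
    have z1 : EU Z := (u i).comp (fun c => (c - 1).unpair.2) id
    have e' : InjOn (fun p => o b (fun k => X k p) (Z p)) D :=
      e.congr fun p a => if_neg fun c => h p a (if_pos c)
    have h' : ∀ p ∈ D, R (fun k => X k p) (Z p) ∧ (V (fun k => X k p) (Z p) ∈ old (X i p) ↔ b) :=
      fun p a => by_contra fun c => h p a (ite_eq_left_iff.2 fun _ => if_neg c)
    cases b
    swap
    · exact hV X Z x1 z1 (e'.congr fun p a => if_pos (h' p a))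
    have xi : ∀ p, X i p = (U i p - 1).unpair.1 := fun p => by simp [X]
    obtain ⟨a, k | k⟩ := u i
    swap
    · obtain ⟨S, s1, s2⟩ := hb (a 0 - 1).unpair.1
      exact inf e' s1 fun x => s2 _ _ _ (by rw [xi, k])
    obtain ⟨s, -, s2⟩ := exists_seq_of_forall_finset_exists (fun _ => True)
      (fun x y => x < y ∧ (a x - 1).unpair.2 ≤ (a y - 1).unpair.1) fun t _ => by
        obtain ⟨S, s1, s2⟩ := hb (t.sup fun x => (a x - 1).unpair.2)
        obtain ⟨y, y1⟩ := not_forall.1 (inf (sub e' (add_left_strictMono (a := t.sup id))) s1)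
        refine ⟨y + 2 + t.sup id, trivial, fun x c => ⟨?_, by_contra fun d => y1 (s2 _ _ _ ?_)⟩⟩
        · have : x ≤ t.sup id := Finset.le_sup (f := id) c
          omega
        · rw [xi, k]
          exact (not_le.1 d).le.trans (Finset.le_sup (f := fun x => (a x - 1).unpair.2) c)
    have m : StrictMono s := fun x y l => (s2 x y l).1
    have w : ∀ p ∈ D, ∀ q ∈ D, p.1 < q.1 → V (fun k => X k (p.map s s)) (Z (p.map s s)) ≠
        V (fun k => X k (q.map s s)) (Z (q.map s s)) := fun p c q d l g => by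
      have : Z (p.map s s) ≤ X i (q.map s s) := by
        simpa only [Z, xi, k, Prod.map_fst] using (s2 _ _ l).2
      refine Bool.false_ne_true ((h' _ (m d)).2.1 ⟨_, j.forall_iff_succAbove.2 ⟨?_, fun r => ?_⟩, g⟩)
      · simpa using this
      · simpa using (((h' _ (m c)).1.1 r).trans (h' _ (m c)).1.2).trans this
    refine hV (fun k p => X k (p.map s s)) (fun p => Z (p.map s s)) (fun k => (x1 k).comp id s)
      (z1.comp id s) fun p c q d g => ?_
    rcases lt_trichotomy p.1 q.1 with l | l | l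
    · exact absurd g (w p c q d l)
    · have : Z (p.map s s) = Z (q.map s s) := by simp only [Z, k, Prod.map_fst, l]
      refine sub e' m c d ((if_pos (h' _ (m c))).trans (Eq.trans ?_ (if_pos (h' _ (m d))).symm))
      simp only [cond_false] at g ⊢
      rw [g, this]
    · exact absurd g.symm (w q d p c l)
  have hc : ∀ b, (fun x => A b (Function.update (fun k => x (j.succAbove k)) i
      (B (x (j.succAbove i)) (x j)))) ∈ C (n + 1) := fun b =>
    upd hC (ih _ (hA b)) (fun _ => hC.1 _ _) i (bin hC hT hB (hC.1 _ _) (hC.1 _ _))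
  refine ⟨_, bin hC hT mx (hc true) (bin hC hT hG (hc false) (hC.1 _ j)), fun x z => ?_⟩
  have e : ∀ b, A b (Function.update x i (B (x i) z)) = o b x z := fun b => by
    by_cases r : R x z
    · have := congrFun (Function.invFun_eq (f := τ (x i)) ⟨z, rfl⟩)
        (b, fun k => ⟨x k, Nat.lt_succ_of_le (r.1 k)⟩)
      simpa [A, B, r.2, τ] using this
    by_cases l : x i ≤ z
    · have : ∀ z, ¬ R x z := fun z h => r ⟨h.1, l⟩
      simp [A, B, l, o, this]
    · simp [A, B, l, o, r]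
  simp only [Fin.insertNth_apply_same, Fin.insertNth_apply_succAbove, e]
  have g : V (dec (sInf {c | V (dec c) z = V x z})) z = V x z :=
    Nat.sInf_mem (s := {c | V (dec c) z = V x z}) ((hd x).imp fun c h => by simp [h])
  change max _ _ ≤ V x z ∧ (R x z → max _ _ = V x z)
  by_cases r : R x z <;> by_cases l : V x z ∈ old (x i) <;> simp [o, G, r, l, g]

theorem main (n : ℕ) : ∀ f : Op n, N f → f ∈ C n := by
  induction n with
  | zero =>
    intro f _
    convert bin hC hT (f := fun a _ => f fun _ => a) (un (fun a => f fun _ => a) 0) (hC.1 0 0)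
      (hC.1 0 0) using 3 with x
    ext i
    rw [Subsingleton.elim (α := Fin 1) i 0]
  | succ n ih =>
    intro f hf
    choose g g1 g2 using fun p : Fin (n + 2) × Fin (n + 1) => step hC hT ih hf p.1 p.2
    convert sup hC hT Finset.univ g1 with x
    refine le_antisymm ?_ (Finset.sup_le fun p _ => ?_)
    · obtain ⟨j, a⟩ := Finite.exists_max x
      obtain ⟨i, b⟩ := Finite.exists_max (j.removeNth x)
      have := (g2 (j, i) (j.removeNth x) (x j)).2 ⟨b, a _⟩
      rw [Fin.insertNth_self_removeNth] at this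
      exact this ▸ Finset.le_sup (f := fun p => g p x) (Finset.mem_univ _)
    · simpa using (g2 p (p.1.removeNth x) (x p.1)).1

omit hC hT

theorem result : IsGreatest {C : ∀ n, Set (Op n) | IsClone C ∧ C 1 = T2} Gen := by
  refine ⟨⟨⟨fun n i C h _ => h.1 n i, fun m n f a g b C h k => h.2 m n f (a C h k) g
    fun i => b i C h k⟩, Subset.antisymm (fun f h => ?_) fun f h C _ k => k h⟩,
    fun C ⟨c1, c2⟩ n f h E e1 e2 => main e1 e2 n f fun U u j => ?_⟩
  · simpa using h (fun n => {f | ∀ g : Fin (n + 1) → Op 1, (∀ i, g i ∈ T2) →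
      (fun x => f fun i => g i x) ∈ T2}) ⟨fun n i g k => k i, fun m n f a g b t k => a _ fun i =>
      b i t k⟩ (fun f a g k => by
        convert closed a (k 0) (k 1) using 3; ext i; fin_cases i <;> rfl) (fun i x => x i) (un id)
  · refine (c2 ▸ c1.2 _ _ f h (fun i w => U i (w 0, w 1)) fun i => ?_ :) ⟨id, id, .inr j⟩
    obtain ⟨a, k | k⟩ := u i <;> simp only [k, c2]
    exacts [un a 0, un a 1]

end Pool.Agent.Results.MP_944b5f_al.Equal
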